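import Pool.Agent.Lib.MP_b573ec_lc_HQ.Final3

/-!
# CLIQUE and multihead two-way stack machines with few head moves

The programs are nonuniform machines with `w` states, a stack and `k` two-way input heads; the
height of the stack and the number of stack moves are not bounded, but the heads make only `T`
moves, each to a neighbour cell.  The input is a graph with `n` vertices, given by its
`N = n (n - 1) / 2` edge bits; the question is whether it has a clique with at least `s` vertices.
There is a constant `C` such that for all `s ≤ (n + 1) / 2`, `N ≤ T`, `N, w ≤ 2 ^ S` with
`C * k ^ 2 * T ≤ N * s` and `C * k ^ 3 * T ^ 2 * S ≤ N ^ 3` there are no randomized stack programs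
with `k` heads, `T` head moves and width `w` for this problem, neither with two-sided error `1/3`
nor with one-sided error `1/2`, and there is no nondeterministic one for its complement.

Proof of the randomized part: the graph has `M` groups of vertices; the edge bits of the vertices
of a group are consecutive cells of the input.  For most pairs of such blocks of cells, the two
blocks (without margins) are visited alternately only few times, and not together, so the
transcripts of a computation for such a pair are rectangles.  A clique chooses a place `(a, b)`, an
element of `Z/3` for every group and a partial sum; the graph has a clique if and only if at some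
place the sum over all groups is `2`.  This is a disjointness problem for the two groups of the
pair, and rectangles are bad for it.
-/

namespace Pool.Agent.Results.MP_b573ec_lc.MultiheadStackNP

open Pool.Agent.HM (HeadTwoSided HeadOneSided HeadNondet)
open Pool.Agent.SQ (clique)

theorem result : ∃ C : ℕ, ∀ n s k T S w : ℕ, 2 ≤ n → 1 ≤ k → n.choose 2 ≤ T → 1 ≤ S →
    n.choose 2 ≤ 2 ^ S → w ≤ 2 ^ S → 2 * s ≤ n + 1 → C * k ^ 2 * T ≤ n.choose 2 * s →
    C * k ^ 3 * T ^ 2 * S ≤ (n.choose 2) ^ 3 →
      ¬ HeadTwoSided (clique n s) k T w ∧ ¬ HeadOneSided (clique n s) k T w ∧
        ¬ HeadNondet (fun x => !clique n s x) k T w :=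
  Pool.Agent.HQ.result3

end Pool.Agent.Results.MP_b573ec_lc.MultiheadStackNP
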