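import Mathlib
import Pool.Agent.Lib.MP_b573ec_lc_RA.Cnf
import Pool.Agent.Lib.MP_0a1b52_lc_EX.RandU
import Pool.Agent.Lib.MP_0a1b52_lc_EX.RandV
import Pool.Agent.Lib.MP_0a1b52_lc_EX.OnceD

set_option autoImplicit false

/-!
# Guessed bits against random bits in circuits which read their input few times

The definitions (`EdgeVar`, `graphOf`, `HasClique`, `Clq`, `Gate`, `Circuit`, `Circuit.IsEval`,
`Circuit.Accepts`) are in `Pool/Agent/Lib/MP_0a1b52_lc_FP/Defs.lean`, the formal accepting trees
(`ATree`) in `Pool/Agent/Lib/MP_0a1b52_lc_RT/DefsA.lean`.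
-/

namespace Pool.Agent.Results.MP_b573ec_lc.ReadTimesNP

open Pool.Agent.FP Pool.Agent.RT

open Classical in
/-- **Guessed bits against random bits in circuits which read their input few times.**  The problem
is in NP: does a graph `x` on `n` vertices have a clique of more than `√n` vertices?

(a) For `n ≥ 25` there is a circuit `D` with at most `n ^ 3` gates, whose variables are the edge
variables and at most `n ^ 2` bits `w`, such that `x` has such a clique if and only if `D` accepts
`(x, w)` for some `w`, and every formal accepting tree of `D` reads each edge variable at most once.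

The circuits in (b) and (c) have, besides the edge variables, `t` further inputs; on the graph `x`
and the random choice `ω`, an element of any finite set `Ω`, the further input `j` has the value
`g j x ω`, where the `g j` are any functions of `ω` and of the variables outside the set `E` (in
(c): outside the star forest).

(b) Let `r ≥ 1` and `m ≥ v = 2 ^ (128 √r)`, and let `E` be a set of edge variables which has at
least `m ^ 2` elements, with `n ≥ m ^ 2`, or which touches at least `2 m` vertices (the elements of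
`W`), with `n ≥ 9 m ^ 2`.  There are graphs `P 0, …, P (N - 1)` with such cliques (`N > 0`) such
that every such circuit with at most `2 ^ (m / v)` gates which accepts no `(x, ω)` with a graph `x`
without such a clique and which reads each variable of `E` at most `r` times in each formal
accepting tree accepts at most the fraction `2 ^ (- m / v)` of all pairs `(P i, ω)`.

(c) There is `m₀` such that for all `m ≥ m₀`, `n ≥ m ^ 7` and all `m` edge variables which form a
star forest (the edges `{z i, u i}`, where the `u i` are distinct and no `z i` is a `u j`) there are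
graphs `P 0, …, P (N - 1)` with such cliques (`N > 0`) such that every such circuit with `s` gates
which accepts no `(x, ω)` with a graph `x` without such a clique and which reads each variable of
the star forest at most once in each formal accepting tree accepts at most the fraction
`s * m ^ 12 / 2 ^ m` of all pairs `(P i, ω)`.

(d) The exponent in (c) is a natural barrier: for each circuit with `s` gates, whose variables are
the edge variables and `t` bits `w`, and each set `E` of `k` edge variables (not all, or `t > 0`)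
there is a circuit with at most `2 ^ k (s + 2 k + 5)` gates which accepts the same `(x, w)` and
reads each variable of `E` at most once in each formal accepting tree. -/
theorem result :
    (∀ n : ℕ, 25 ≤ n → ∃ (t s : ℕ) (D : Circuit (EdgeVar n ⊕ Fin t) s), t ≤ n ^ 2 ∧ s ≤ n ^ 3 ∧
      (∀ x : EdgeVar n → Bool, Clq x ↔ ∃ w : Fin t → Bool, D.Accepts (Sum.elim x w)) ∧
      ∀ L, ATree D D.out L → ∀ e : EdgeVar n, L.count (Sum.inl e) ≤ 1) ∧
    (∀ r m n : ℕ, 1 ≤ r → (2 : ℝ) ^ (128 * Real.sqrt r) ≤ m →
      ∀ E : Finset (EdgeVar n),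
      ((m ^ 2 ≤ E.card ∧ m ^ 2 ≤ n) ∨
        (∃ W : Finset (Fin n), 2 * m ≤ W.card ∧ ∀ v ∈ W, ∃ e ∈ E, e.1.1 = v ∨ e.1.2 = v) ∧
          9 * m ^ 2 ≤ n) →
      ∃ (N : ℕ) (P : Fin N → EdgeVar n → Bool), 0 < N ∧ (∀ i, Clq (P i)) ∧
        ∀ (Ω : Type) [Fintype Ω] (t : ℕ) (g : Fin t → (EdgeVar n → Bool) → Ω → Bool),
          (∀ j x y ω, (∀ f, f ∉ E → x f = y f) → g j x ω = g j y ω) →
        ∀ (s : ℕ) (D : Circuit (EdgeVar n ⊕ Fin t) s),
          (∀ x ω, D.Accepts (Sum.elim x fun j => g j x ω) → Clq x) →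
          (s : ℝ) ≤ (2 : ℝ) ^ (m / (2 : ℝ) ^ (128 * Real.sqrt r)) →
          (∀ e ∈ E, ∀ L, ATree D D.out L → L.count (Sum.inl e) ≤ r) →
          ((Finset.univ.filter fun p : Fin N × Ω =>
            D.Accepts (Sum.elim (P p.1) fun j => g j (P p.1) p.2)).card : ℝ) ≤
            N * Fintype.card Ω * (2 : ℝ) ^ (-(m / (2 : ℝ) ^ (128 * Real.sqrt r)))) ∧
    (∃ m₀ : ℕ, ∀ m ≥ m₀, ∀ n ≥ m ^ 7, ∀ u z : Fin m → Fin n,
      Function.Injective u → (∀ i j, z i ≠ u j) → ∀ e : Fin m → EdgeVar n,
      (∀ i, (e i).1 = (z i, u i) ∨ (e i).1 = (u i, z i)) →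
      ∃ (N : ℕ) (P : Fin N → EdgeVar n → Bool), 0 < N ∧ (∀ i, Clq (P i)) ∧
        ∀ (Ω : Type) [Fintype Ω] (t : ℕ) (g : Fin t → (EdgeVar n → Bool) → Ω → Bool),
          (∀ j x y ω, (∀ f, (∀ i, f ≠ e i) → x f = y f) → g j x ω = g j y ω) →
        ∀ (s : ℕ) (D : Circuit (EdgeVar n ⊕ Fin t) s),
          (∀ x ω, D.Accepts (Sum.elim x fun j => g j x ω) → Clq x) →
          (∀ i L, ATree D D.out L → L.count (Sum.inl (e i)) ≤ 1) →
          ((Finset.univ.filter fun p : Fin N × Ω =>
            D.Accepts (Sum.elim (P p.1) fun j => g j (P p.1) p.2)).card : ℝ) ≤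
            N * Fintype.card Ω * (s * m ^ 12 / 2 ^ m)) ∧
    ∀ (n t s : ℕ) (D : Circuit (EdgeVar n ⊕ Fin t) s) (E : Finset (EdgeVar n)),
      0 < t ∨ E ≠ Finset.univ →
      ∃ (s' : ℕ) (D' : Circuit (EdgeVar n ⊕ Fin t) s'),
        s' ≤ 2 ^ E.card * (s + 2 * E.card + 5) ∧ (∀ x, D'.Accepts x ↔ D.Accepts x) ∧
        ∀ e ∈ E, ∀ L, ATree D' D'.out L → L.count (Sum.inl e) ≤ 1 := by
  refine ⟨fun n hn => Pool.Agent.RA.cnf_cliqueE hn,
    fun r m n hr hm E hE => Pool.Agent.EX.bigRA r m n hr hm E hE,
    Pool.Agent.EX.exactA, fun n t s D E h => ?_⟩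
  obtain ⟨u, hu⟩ : ∃ u : EdgeVar n ⊕ Fin t, ∀ e ∈ E, u ≠ Sum.inl e := by
    rcases h with h | h
    · exact ⟨Sum.inr ⟨0, h⟩, fun e _ => by simp⟩
    · obtain ⟨u, hu⟩ : ∃ u, u ∉ E := by
        by_contra hc
        exact h (Finset.eq_univ_iff_forall.2 fun u => by
          by_contra h1
          exact hc ⟨u, h1⟩)
      exact ⟨Sum.inl u, fun e he h1 => hu (Sum.inl.inj h1 ▸ he)⟩
  exact Pool.Agent.EX.onceD D E u hu

end Pool.Agent.Results.MP_b573ec_lc.ReadTimesNP
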