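import Mathlib
import Pool.Agent.Lib.MP_b573ec_lc_MV.Up
import Pool.Agent.Lib.MP_b573ec_lc_MV.LowR
import Pool.Agent.Lib.MP_b573ec_lc_MV.Once
import Pool.Agent.Lib.MP_b573ec_lc_MV.Sharp

set_option autoImplicit false

/-!
# One-sided error cannot be removed from circuits which read their input few times

The definitions of circuits (`Gate`, `Circuit`, `Circuit.IsEval`, `Circuit.Accepts`) are in
`Pool/Agent/Lib/MP_0a1b52_lc_FP/Defs.lean`, the formal refutation trees (`Tree`) in
`Pool/Agent/Lib/MP_0a1b52_lc_RT/Defs.lean`, the function (`Bit`, `MulNe`) in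
`Pool/Agent/Lib/MP_b573ec_lc_MV/Fun.lean`.
-/

namespace Pool.Agent.Results.MP_b573ec_lc.ReadTimesRP

open Pool.Agent.FP Pool.Agent.RT Pool.Agent.MV

open Classical in
/-- **One-sided error cannot be removed from circuits which read their input few times.**  The input
`z` consists of an `n × n` matrix `A` and a vector `x` over the field with two elements; `MulNe z`
says that `A x ≠ 0`.

(a) For `n ≥ 20` there is a circuit `D` with at most `n ^ 4` gates, whose variables are the bits of
`z` and `n` bits `w`, which accepts no `(z, w)` without `MulNe z`, accepts `(z, w)` for exactly half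
of the `w` if `MulNe z`, and reads each bit of `z` at most once in each formal refutation tree.

The circuits in (b) and (c) have, besides the bits of `z`, `t` further inputs; on `z` and the random
bits `w : Fin u → Bool` the further input `j` has the value `g j z w`, where the `g j` are any
functions of `w` and of the bits of `z` which are not among the bits `x i`, `i ∈ E`.

(b) For `r ≥ 1`, `m ≥ 2 ^ (20 r)` and every set `E` of at least `m` of the indices there are inputs
`Q 0, …, Q (N - 1)` without `MulNe` (`N > 0`) such that every such circuit with at most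
`2 ^ (m / 2 ^ (20 r))` gates which accepts all `(z, w)` with `MulNe z` and which reads each bit
`x i`, `i ∈ E`, at most `r` times in each formal refutation tree rejects at most the fraction
`2 ^ (- m / 2 ^ (20 r))` of all pairs `(Q i, w)`.

(c) For every set `E` of at least `m` of the indices there are inputs `Q 0, …, Q (N - 1)` without
`MulNe` (`N > 0`) such that every such circuit with `s` gates which accepts all `(z, w)` with
`MulNe z` and which reads each bit `x i`, `i ∈ E`, at most once in each formal refutation tree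
rejects at most the fraction `12 s / 2 ^ (m / 2)` of all pairs `(Q i, w)`.

(d) For `n ≥ 100` and every set `E` of indices there is a circuit with at most
`2 ^ (|E| / 2) n ^ 5` gates which accepts `z` if and only if `MulNe z`, and which reads each bit
`x i`, `i ∈ E`, at most once in each formal refutation tree. -/
theorem result :
    (∀ n : ℕ, 20 ≤ n → ∃ (s : ℕ) (D : Circuit (Bit n ⊕ Fin n) s), s ≤ n ^ 4 ∧
      (∀ (z : Bit n → Bool) (w : Fin n → Bool), D.Accepts (Sum.elim z w) → MulNe z) ∧
      (∀ z : Bit n → Bool, MulNe z →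
        2 * (Finset.univ.filter fun w : Fin n → Bool => D.Accepts (Sum.elim z w)).card = 2 ^ n) ∧
      ∀ L, Tree D D.out L → ∀ v : Bit n, L.count (Sum.inl v) ≤ 1) ∧
    (∀ n m r : ℕ, 1 ≤ r → 2 ^ (20 * r) ≤ m → ∀ E : Finset (Fin n), m ≤ E.card →
      ∃ (N : ℕ) (Q : Fin N → Bit n → Bool), 0 < N ∧ (∀ i, ¬ MulNe (Q i)) ∧
        ∀ (u t : ℕ) (g : Fin t → (Bit n → Bool) → (Fin u → Bool) → Bool),
          (∀ j z z' w, (∀ f, (∀ i ∈ E, f ≠ Sum.inl i) → z f = z' f) → g j z w = g j z' w) →
        ∀ (s : ℕ) (D : Circuit (Bit n ⊕ Fin t) s),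
          (s : ℝ) ≤ (2 : ℝ) ^ ((m : ℝ) / 2 ^ (20 * r)) →
          (∀ (z : Bit n → Bool) (w : Fin u → Bool), MulNe z →
            D.Accepts (Sum.elim z fun j => g j z w)) →
          (∀ i ∈ E, ∀ L, Tree D D.out L → L.count (Sum.inl (Sum.inl i)) ≤ r) →
          ((Finset.univ.filter fun p : Fin N × (Fin u → Bool) =>
            ¬ D.Accepts (Sum.elim (Q p.1) fun j => g j (Q p.1) p.2)).card : ℝ) ≤
            N * 2 ^ u * (2 : ℝ) ^ (-((m : ℝ) / 2 ^ (20 * r)))) ∧
    (∀ n m : ℕ, ∀ E : Finset (Fin n), m ≤ E.card →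
      ∃ (N : ℕ) (Q : Fin N → Bit n → Bool), 0 < N ∧ (∀ i, ¬ MulNe (Q i)) ∧
        ∀ (u t : ℕ) (g : Fin t → (Bit n → Bool) → (Fin u → Bool) → Bool),
          (∀ j z z' w, (∀ f, (∀ i ∈ E, f ≠ Sum.inl i) → z f = z' f) → g j z w = g j z' w) →
        ∀ (s : ℕ) (D : Circuit (Bit n ⊕ Fin t) s),
          (∀ (z : Bit n → Bool) (w : Fin u → Bool), MulNe z →
            D.Accepts (Sum.elim z fun j => g j z w)) →
          (∀ i ∈ E, ∀ L, Tree D D.out L → L.count (Sum.inl (Sum.inl i)) ≤ 1) →
          ((Finset.univ.filter fun p : Fin N × (Fin u → Bool) =>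
            ¬ D.Accepts (Sum.elim (Q p.1) fun j => g j (Q p.1) p.2)).card : ℝ) ≤
            N * 2 ^ u * (12 * s / (2 : ℝ) ^ ((m : ℝ) / 2))) ∧
    ∀ n : ℕ, 100 ≤ n → ∀ E : Finset (Fin n), ∃ (s : ℕ) (D : Circuit (Bit n) s),
      s ≤ 2 ^ (E.card / 2) * n ^ 5 ∧ (∀ z, D.Accepts z ↔ MulNe z) ∧
      ∀ i ∈ E, ∀ L, Tree D D.out L → L.count (Sum.inl i) ≤ 1 :=
  ⟨fun _ hn => upper hn, fun _ _ _ hr hm E hE => lowR hr hm E hE, fun _ _ E hE => once E hE,
    fun _ hn E => sharp hn E⟩

end Pool.Agent.Results.MP_b573ec_lc.ReadTimesRP
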